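import Mathlib
import Pool.Agent.H.MP_cbe697_nt.Main

namespace Pool.Agent.Results.MP_cbe697_nt.Full

open Finset

def M (m n r : ℕ) : ℕ :=
  ∑ k ∈ piAntidiag (univ : Finset (Fin m)) n, Nat.multinomial univ k ^ r

def S (m n r : ℕ) : ℤ :=
  ∑ k ∈ range n, (-1) ^ (r * k) * (((m : ℤ) + 1) * k + m) * (M m k r : ℤ)

theorem result : ∀ m n r : ℕ, 1 ≤ m → 1 ≤ n → ((m : ℤ) * n) ∣ S m n r := by
  intro m n r hm _
  obtain ⟨m, rfl⟩ : ∃ m', m = m' + 1 := ⟨m - 1, by omega⟩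
  have h : ∀ k, M (m + 1) k r = Pool.Agent.H.MP_cbe697_nt.Mr r (m + 1) k := by
    intro k
    rw [M, Pool.Agent.H.MP_cbe697_nt.M_eq, card_univ, Fintype.card_fin]
  unfold S
  simp only [h]
  exact Pool.Agent.H.MP_cbe697_nt.main r m n

end Pool.Agent.Results.MP_cbe697_nt.Full
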